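import Mathlib

set_option autoImplicit false

/-!
# A latin square with a 5-multiplex but no 5-plex

The implication `k`-multiplex implies `k`-plex fails: there is a latin square of order 6 (that is, a
two-dimensional latin hypercube) with a 5-multiplex and without a 5-plex.
-/

namespace Pool.Agent.Results.MP_a6ecd6_co.MultiplexWithoutPlex

/-- `Q : [n]^d → [n]` is a `d`-dimensional latin hypercube of order `n`: whenever all coordinates
but one are fixed, the remaining coordinate produces every symbol exactly once. -/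
def IsLatinHypercube {d n : ℕ} (Q : (Fin d → Fin n) → Fin n) : Prop :=
  ∀ (x : Fin d → Fin n) (i : Fin d), Function.Bijective fun a => Q (Function.update x i a)

/-- The multiset `K` of cells is a `k`-multiplex of `Q`: it has `k * n` elements, every hyperplane
`x i = a` contains exactly `k` elements of `K`, and every symbol `s` is the value of `Q` at exactly
`k` elements of `K`, always counted with multiplicity. -/
def IsMultiplex {d n : ℕ} (Q : (Fin d → Fin n) → Fin n) (k : ℕ)
    (K : Multiset (Fin d → Fin n)) : Prop :=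
  K.card = k * n ∧ (∀ (i : Fin d) (a : Fin n), (K.filter fun x => x i = a).card = k) ∧
    ∀ s : Fin n, (K.filter fun x => Q x = s).card = k

/-- A `k`-plex is a `k`-multiplex in which no cell is repeated. -/
def IsPlex {d n : ℕ} (Q : (Fin d → Fin n) → Fin n) (k : ℕ)
    (K : Multiset (Fin d → Fin n)) : Prop :=
  IsMultiplex Q k K ∧ K.Nodup

/-- The latin square of order six. -/
def M : Fin 6 → Fin 6 → Fin 6 :=
  ![![0, 2, 4, 1, 5, 3], ![5, 3, 0, 2, 4, 1], ![4, 1, 5, 0, 3, 2],
    ![3, 5, 1, 4, 2, 0], ![2, 0, 3, 5, 1, 4], ![1, 4, 2, 3, 0, 5]]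

/-- The latin square of order six as a function of two coordinates. -/
def Q (x : Fin 2 → Fin 6) : Fin 6 := M (x 0) (x 1)

/-- The 5-multiplex: the sum of a 3-plex and a 2-plex. -/
def K : Multiset (Fin 2 → Fin 6) := Multiset.ofList
  [![0, 0], ![0, 1], ![0, 2], ![1, 0], ![1, 1], ![1, 3], ![2, 1], ![2, 2], ![2, 4],
    ![3, 2], ![3, 3], ![3, 5], ![4, 0], ![4, 4], ![4, 5], ![5, 3], ![5, 4], ![5, 5],
    ![0, 0], ![0, 1], ![1, 0], ![1, 1], ![2, 3], ![2, 4], ![3, 2], ![3, 3], ![4, 4], ![4, 5],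
    ![5, 2], ![5, 5]]

theorem isLatin : IsLatinHypercube Q := by
  have h1 : ∀ a : Fin 6, Function.Bijective fun b => M a b := by decide
  have h2 : ∀ b : Fin 6, Function.Bijective fun a => M a b := by decide
  intro x i
  fin_cases i
  · simpa [Q] using h2 (x 1)
  · simpa [Q] using h1 (x 0)

theorem isMultiplex : IsMultiplex Q 5 K := by
  refine ⟨by decide +kernel, ?_, ?_⟩
  · decide +kernel
  · decide +kernel

set_option synthInstance.maxSize 4000 in
/-- The square has no transversal. -/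
theorem no_transversal :
    ∀ a : Fin 6, ∀ b : Fin 6, b ≠ a → M 1 b ≠ M 0 a →
    ∀ c : Fin 6, c ≠ a → c ≠ b → M 2 c ≠ M 0 a → M 2 c ≠ M 1 b →
    ∀ d : Fin 6, d ≠ a → d ≠ b → d ≠ c → M 3 d ≠ M 0 a → M 3 d ≠ M 1 b → M 3 d ≠ M 2 c →
    ∀ e : Fin 6, e ≠ a → e ≠ b → e ≠ c → e ≠ d →
      M 4 e ≠ M 0 a → M 4 e ≠ M 1 b → M 4 e ≠ M 2 c → M 4 e ≠ M 3 d →
    ∀ f : Fin 6, f ≠ a → f ≠ b → f ≠ c → f ≠ d → f ≠ e →
      M 5 f ≠ M 0 a → M 5 f ≠ M 1 b → M 5 f ≠ M 2 c → M 5 f ≠ M 3 d → M 5 f ≠ M 4 e → False := by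
  decide +kernel

theorem no_plex (S : Multiset (Fin 2 → Fin 6)) : ¬ IsPlex Q 5 S := by
  rintro ⟨⟨-, hline, hsym⟩, hnd⟩
  -- a class of six cells of which five lie in `S` has at most one cell outside `S`
  have key : ∀ (p : (Fin 2 → Fin 6) → Prop) [DecidablePred p],
      (Finset.univ.filter p).card = 6 → (S.filter p).card = 5 →
        (∃ x, p x ∧ x ∉ S) ∧ ∀ x y, p x → p y → x ∉ S → y ∉ S → x = y := by
    intro p _ h6 h5
    have hF : (S.toFinset.filter p).card = 5 := by
      rw [← h5, ← Multiset.toFinset_filter, Multiset.card_toFinset,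
        Multiset.dedup_eq_self.2 (hnd.filter p)]
    have hcard : ((Finset.univ.filter p) \ (S.toFinset.filter p)).card = 1 := by
      rw [Finset.card_sdiff_of_subset, h6, hF]
      intro x hx
      rw [Finset.mem_filter] at hx ⊢
      exact ⟨Finset.mem_univ _, hx.2⟩
    obtain ⟨z, hz⟩ := Finset.card_eq_one.1 hcard
    have hmem : ∀ x, p x → x ∉ S → x = z := by
      intro x hx hxS
      have : x ∈ (Finset.univ.filter p) \ (S.toFinset.filter p) := by
        simp [hx, hxS]
      rw [hz] at this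
      exact Finset.mem_singleton.1 this
    refine ⟨⟨z, ?_⟩, fun x y hx hy hxS hyS => (hmem x hx hxS).trans (hmem y hy hyS).symm⟩
    have hz' : z ∈ (Finset.univ.filter p) \ (S.toFinset.filter p) := by
      rw [hz]; exact Finset.mem_singleton_self z
    simp only [Finset.mem_sdiff, Finset.mem_filter, Finset.mem_univ, true_and,
      Multiset.mem_toFinset, not_and] at hz'
    exact ⟨hz'.1, fun h => hz'.2 h hz'.1⟩
  have hc1 : ∀ (i : Fin 2) (a : Fin 6),
      (Finset.univ.filter fun x : Fin 2 → Fin 6 => x i = a).card = 6 := by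
    decide +kernel
  have hc2 : ∀ s : Fin 6, (Finset.univ.filter fun x : Fin 2 → Fin 6 => Q x = s).card = 6 := by
    decide +kernel
  -- the missing cell of each row
  have hex : ∀ r : Fin 6, ∃ c : Fin 6, (![r, c] : Fin 2 → Fin 6) ∉ S := by
    intro r
    obtain ⟨x, hx, hxS⟩ := (key _ (hc1 0 r) (hline 0 r)).1
    refine ⟨x 1, ?_⟩
    have : (![r, x 1] : Fin 2 → Fin 6) = x := by
      ext i
      fin_cases i
      · simp [hx]
      · simp
    rwa [this]
  choose f hf using hex
  have hcol : ∀ r r' : Fin 6, r ≠ r' → f r ≠ f r' := by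
    intro r r' hne h
    have := (key _ (hc1 1 (f r)) (hline 1 (f r))).2 ![r, f r] ![r', f r'] (by simp)
      (by simp [h]) (hf r) (hf r')
    exact hne (by simpa using congrFun this 0)
  have hsy : ∀ r r' : Fin 6, r ≠ r' → M r (f r) ≠ M r' (f r') := by
    intro r r' hne h
    have := (key _ (hc2 (M r (f r))) (hsym (M r (f r)))).2 ![r, f r] ![r', f r'] (by simp [Q])
      (by simp [Q, h]) (hf r) (hf r')
    exact hne (by simpa using congrFun this 0)
  exact no_transversal (f 0) (f 1) (hcol _ _ (by decide)) (hsy _ _ (by decide))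
    (f 2) (hcol _ _ (by decide)) (hcol _ _ (by decide)) (hsy _ _ (by decide)) (hsy _ _ (by decide))
    (f 3) (hcol _ _ (by decide)) (hcol _ _ (by decide)) (hcol _ _ (by decide))
    (hsy _ _ (by decide)) (hsy _ _ (by decide)) (hsy _ _ (by decide))
    (f 4) (hcol _ _ (by decide)) (hcol _ _ (by decide)) (hcol _ _ (by decide))
    (hcol _ _ (by decide))
    (hsy _ _ (by decide)) (hsy _ _ (by decide)) (hsy _ _ (by decide)) (hsy _ _ (by decide))
    (f 5) (hcol _ _ (by decide)) (hcol _ _ (by decide)) (hcol _ _ (by decide))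
    (hcol _ _ (by decide)) (hcol _ _ (by decide))
    (hsy _ _ (by decide)) (hsy _ _ (by decide)) (hsy _ _ (by decide)) (hsy _ _ (by decide))
    (hsy _ _ (by decide))

/-- There are a dimension `d ≥ 2`, an order `n`, a number `1 ≤ k ≤ n ^ (d - 1)` and a
`d`-dimensional latin hypercube of order `n` that has a `k`-multiplex but no `k`-plex; in fact
`d = 2`, `n = 6`, `k = 5`. -/
theorem result :
    ∃ d n k : ℕ, 2 ≤ d ∧ 1 ≤ n ∧ 1 ≤ k ∧ k ≤ n ^ (d - 1) ∧
      (d = 2 ∧ n = 6 ∧ k = 5) ∧
      ∃ Q : (Fin d → Fin n) → Fin n, IsLatinHypercube Q ∧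
        (∃ K, IsMultiplex Q k K) ∧ ¬ ∃ K, IsPlex Q k K :=
  ⟨2, 6, 5, le_rfl, by norm_num, by norm_num, by norm_num, ⟨rfl, rfl, rfl⟩,
    Q, isLatin, ⟨K, isMultiplex⟩, fun ⟨S, hS⟩ => no_plex S hS⟩

end Pool.Agent.Results.MP_a6ecd6_co.MultiplexWithoutPlex
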